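import Pool.Agent.H289Z.ZI5

/-!
# Linear growth of the index of the set of periodic points

There is a fixed-point free dynamical system whose sets of `p`-periodic points have `Z_p`-index at
least `C p` for all large primes `p`.
-/

set_option autoImplicit false

namespace Pool.Agent.Results.MP_4d0e60_an.AIndex

open Pool.Agent.H289Z.ZI

theorem result : ∃ (X : Type) (_ : TopologicalSpace X) (_ : CompactSpace X)
    (_ : TopologicalSpace.MetrizableSpace X) (T : X ≃ₜ X), (∀ x, T x ≠ x) ∧
    ∃ C : ℝ, 0 < C ∧ ∃ p₀ : ℕ, ∀ (p : ℕ) [Fact p.Prime], p₀ ≤ p →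
      C * p ≤ ind p (perMap T p) := by
  obtain ⟨X, i1, i2, i3, T, h1, h2⟩ := main_all
  exact ⟨X, i1, i2, i3, T, h1, 1 / 52, by norm_num, 102, fun p _ hp => (h2 p hp).1⟩

end Pool.Agent.Results.MP_4d0e60_an.AIndex
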